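import Pool.Agent.Y157.PC.Stm

set_option autoImplicit false

/-!
Project PC (helper157), statement RAM: inertia groups act trivially on a number field, outside a finite set of primes.
-/

namespace Pool.Agent.Y809.PC

open Polynomial
open Pool.Agent.Y157.PS Pool.Agent.Y157.PC

/-- a nonzero algebraic number is a nonunit only above finitely many primes -/
lemma nonunit_int {κ : Type} [Field κ] [CharZero κ] {δ : κ} (h0 : δ ≠ 0) (ha : IsAlgebraic ℤ δ) :
    ∃ n : ℤ, n ≠ 0 ∧ ∀ V : ValuationSubring κ, δ ∈ V.nonunits → (n : κ) ∈ V.nonunits := by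
  obtain ⟨q, hq0, hq⟩ := ha.exists_nonzero_coeff_and_aeval_eq_zero (mem_nonZeroDivisors_of_ne_zero h0)
  refine ⟨q.coeff 0, hq0, fun V hV => ?_⟩
  have hδ : δ ∈ V := V.nonunits_subset hV
  have hs : aeval δ q.divX ∈ V := by
    rw [aeval_eq_sum_range]
    refine sum_mem fun i _ => ?_
    rw [zsmul_eq_mul]
    exact mul_mem (intCast_mem V _) (pow_mem hδ i)
  have e : ((q.coeff 0 : ℤ) : κ) = -(δ * aeval δ q.divX) := by
    have h1 := congrArg (aeval δ) (Polynomial.X_mul_divX_add q)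
    rw [map_add, map_mul, aeval_X, aeval_C, hq] at h1
    have h2 : (algebraMap ℤ κ) (q.coeff 0) = ((q.coeff 0 : ℤ) : κ) := eq_intCast _ _
    rw [h2] at h1
    linear_combination h1
  rw [ValuationSubring.mem_nonunits_iff] at hV ⊢
  rw [e, Valuation.map_neg, map_mul]
  have hs' : V.valuation (aeval δ q.divX) ≤ 1 := (V.valuation_le_one_iff _).mpr hs
  calc V.valuation δ * V.valuation (aeval δ q.divX) ≤ V.valuation δ * 1 := mul_le_mul_right hs' _
    _ = V.valuation δ := mul_one _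
    _ < 1 := hV

/-- two coprime integers are not both nonunits -/
lemma not_both {κ : Type} [Field κ] (V : ValuationSubring κ) {p : ℕ} {n : ℤ} (hp : p.Prime) (hn : ¬ (p : ℤ) ∣ n)
    (h1 : (p : κ) ∈ V.nonunits) (h2 : (n : κ) ∈ V.nonunits) : False := by
  have hc : IsCoprime (p : ℤ) n := (Prime.coprime_iff_not_dvd (Nat.prime_iff_prime_int.mp hp)).mpr hn
  obtain ⟨u, w, hu⟩ := hc
  have e : (u : κ) * (p : κ) + (w : κ) * (n : κ) = 1 := by exact_mod_cast congrArg (fun z : ℤ => (z : κ)) hu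
  rw [ValuationSubring.mem_nonunits_iff] at h1 h2
  have hu' : V.valuation (u : κ) ≤ 1 := (V.valuation_le_one_iff _).mpr (intCast_mem V _)
  have hw' : V.valuation (w : κ) ≤ 1 := (V.valuation_le_one_iff _).mpr (intCast_mem V _)
  have l1 : V.valuation ((u : κ) * (p : κ)) < 1 := by
    rw [map_mul]
    exact (mul_le_mul_left hu' _).trans_lt (by rw [one_mul]; exact h1)
  have l2 : V.valuation ((w : κ) * (n : κ)) < 1 := by
    rw [map_mul]
    exact (mul_le_mul_left hw' _).trans_lt (by rw [one_mul]; exact h2)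
  have l3 := (V.valuation.map_add ((u : κ) * (p : κ)) ((w : κ) * (n : κ)))
  rw [e, map_one] at l3
  exact absurd l3 (not_le.mpr (max_lt l1 l2))

lemma int_mem {κ : Type} [Field κ] (V : ValuationSubring κ) {θ : κ} (h : IsIntegral ℤ θ) : θ ∈ V := by
  have h1 : IsIntegral V θ := h.tower_top
  obtain ⟨y, hy⟩ := (IsIntegrallyClosed.isIntegral_iff (R := V) (K := κ)).mp h1
  rw [← hy]
  exact y.2

/-- one element -/
lemma ram_one {κ : Type} [Field κ] [Algebra ℚ κ] [IsAlgClosure ℚ κ] (z : κ) :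
    ∃ S : Finset ℕ, ∀ p : ℕ, p.Prime → p ∉ S →
      ∀ V : ValuationSubring κ, (p : κ) ∈ V.nonunits → ∀ σ : κ ≃ₐ[ℚ] κ, Ine V σ → σ z = z := by
  classical
  have : CharZero κ := algebraRat.charZero κ
  have : Algebra.IsAlgebraic ℚ κ := IsAlgClosure.isAlgebraic
  have hall : ∀ w : κ, IsAlgebraic ℤ w := fun w =>
    (IsFractionRing.isAlgebraic_iff ℤ ℚ κ).mpr (Algebra.IsAlgebraic.isAlgebraic w)
  obtain ⟨y, hy0, hy⟩ := (hall z).exists_integral_multiple
  set θ : κ := y • z with hθ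
  obtain ⟨P, hPm, hP⟩ := hy
  have hP0 : P ≠ 0 := hPm.ne_zero
  have hn : ∀ a : κ, ∃ n : ℤ, n ≠ 0 ∧ (a ≠ θ → ∀ V : ValuationSubring κ, a - θ ∈ V.nonunits →
      (n : κ) ∈ V.nonunits) := by
    intro a
    by_cases h : a = θ
    · exact ⟨1, one_ne_zero, fun h' => absurd h h'⟩
    · obtain ⟨n, hn0, hn⟩ := nonunit_int (sub_ne_zero.mpr h) (hall _)
      exact ⟨n, hn0, fun _ => hn⟩
  choose n hn0 hn using hn
  refine ⟨(P.aroots κ).toFinset.biUnion fun a => (n a).natAbs.primeFactors, ?_⟩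
  intro p hp hpS V hV σ hσ
  have hθV : θ ∈ V := int_mem V ⟨P, hPm, hP⟩
  have h1 : σ θ - θ ∈ V.nonunits := hσ.2 θ hθV
  have h2 : σ θ = θ := by
    by_contra hne
    have hroot : σ θ ∈ (P.aroots κ).toFinset := by
      rw [Multiset.mem_toFinset, mem_aroots]
      refine ⟨hP0, ?_⟩
      have h3 : aeval (σ θ) P = σ (aeval θ P) := by
        have h4 := Polynomial.hom_eval₂ P (algebraMap ℤ κ) (σ : κ →+* κ) θ
        have h5 : (σ : κ →+* κ).comp (algebraMap ℤ κ) = algebraMap ℤ κ := RingHom.ext_int _ _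
        rw [h5] at h4
        exact h4.symm
      have h6 : aeval θ P = 0 := hP
      rw [h3, h6, map_zero]
    have h7 := hn (σ θ) hne V h1
    refine not_both V hp ?_ hV h7
    intro hd
    apply hpS
    rw [Finset.mem_biUnion]
    refine ⟨σ θ, hroot, ?_⟩
    rw [Nat.mem_primeFactors]
    exact ⟨hp, Int.natCast_dvd.mp hd, Int.natAbs_ne_zero.mpr (hn0 _)⟩
  have h3 : (y : κ) * σ z = (y : κ) * z := by
    have h4 : θ = (y : κ) * z := by rw [hθ, zsmul_eq_mul]
    rw [h4, map_mul, map_intCast] at h2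
    exact h2
  exact mul_left_cancel₀ (Int.cast_ne_zero.mpr hy0) h3

theorem ram : S_RAM := by
  intro κ _ _ _ E hE
  classical
  choose S hS using fun z : κ => ram_one z
  set b := Module.finBasis ℚ E with hb
  refine ⟨Finset.univ.biUnion fun i => S (b i : κ), ?_⟩
  intro p hp hpS V hV σ hσ z hz
  have h1 : ∀ i, σ (b i : κ) = (b i : κ) := by
    intro i
    refine hS (b i : κ) p hp ?_ V hV σ hσ
    intro h
    exact hpS (Finset.mem_biUnion.mpr ⟨i, Finset.mem_univ _, h⟩)
  have h2 : z = ∑ i, b.repr ⟨z, hz⟩ i • (b i : κ) := by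
    have h3 := congrArg E.val (b.sum_repr ⟨z, hz⟩)
    rw [map_sum] at h3
    simp only [map_smul] at h3
    exact h3.symm
  have h3 : σ (∑ i, b.repr ⟨z, hz⟩ i • (b i : κ)) = ∑ i, b.repr ⟨z, hz⟩ i • (b i : κ) := by
    rw [map_sum]
    refine Finset.sum_congr rfl fun i _ => ?_
    rw [map_smul, h1]
  rw [← h2] at h3
  exact h3

end Pool.Agent.Y809.PC
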