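import Pool.Agent.Y915.Stm2

set_option autoImplicit false

/-!
# Taylor series of holomorphic functions on the unit disc (helper809)
-/

namespace Pool.Agent.Y809.PC

open scoped PowerSeries Polynomial Nat
open Pool.Agent.Y915

/-- the Taylor series at zero -/
noncomputable def tay (h : ℂ → ℂ) : ℂ⟦X⟧ :=
  PowerSeries.mk fun m => iteratedDeriv m h 0 / (m ! : ℂ)

lemma coeff_tay (h : ℂ → ℂ) (m : ℕ) :
    PowerSeries.coeff m (tay h) = iteratedDeriv m h 0 / (m ! : ℂ) := PowerSeries.coeff_mk _ _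

lemma hol_contDiffAt {h : ℂ → ℂ} (hh : Hol h) (n : WithTop ℕ∞) : ContDiffAt ℂ n h 0 :=
  (hh.analyticAt (Metric.isOpen_ball.mem_nhds (Metric.mem_ball_self one_pos))).contDiffAt

lemma gd_tay {h : ℂ → ℂ} (hh : Hol h) : Gd 1 (tay h) := by
  intro ρ hρ0 hρ1
  have hsub : Metric.closedBall (0 : ℂ) ρ ⊆ Metric.ball 0 1 :=
    Metric.closedBall_subset_ball hρ1
  have hcont : ContinuousOn h (Metric.closedBall 0 ρ) := hh.continuousOn.mono hsub
  have hdc : DiffContOnCl ℂ h (Metric.ball 0 ρ) := by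
    refine ⟨hh.mono (Metric.ball_subset_closedBall.trans hsub), ?_⟩
    exact hcont.mono Metric.closure_ball_subset_closedBall
  obtain ⟨C, hC⟩ := (isCompact_sphere (0 : ℂ) ρ).exists_bound_of_continuousOn
    (hcont.mono Metric.sphere_subset_closedBall)
  refine ⟨C, fun m => ?_⟩
  have h1 := Complex.norm_iteratedDeriv_le_of_forall_mem_sphere_norm_le m hρ0 hdc hC
  have hf : (0 : ℝ) < (m ! : ℝ) := by exact_mod_cast Nat.factorial_pos m
  rw [coeff_tay, norm_div, Complex.norm_natCast]
  rw [le_div_iff₀ (by positivity)] at h1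
  rw [div_mul_eq_mul_div, div_le_iff₀ hf]
  linarith

theorem hol : StHol := by
  refine ⟨tay, fun h hh => gd_tay hh, ?_, ?_, ?_, ?_, ?_, ?_, ?_⟩
  · intro h k hh he
    have h1 : h =ᶠ[nhds 0] k :=
      he.eventuallyEq_of_mem (Metric.isOpen_ball.mem_nhds (Metric.mem_ball_self one_pos))
    ext m
    rw [coeff_tay, coeff_tay, h1.iteratedDeriv_eq]
  · intro h _
    rw [← PowerSeries.coeff_zero_eq_constantCoeff_apply, coeff_tay]
    simp
  · intro h _
    rw [coeff_tay]
    simp
  · intro h k hh hk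
    ext m
    rw [map_add, coeff_tay, coeff_tay, coeff_tay, iteratedDeriv_fun_add (hol_contDiffAt hh _)
      (hol_contDiffAt hk _), add_div]
  · intro h k hh hk
    ext m
    rw [PowerSeries.coeff_mul, coeff_tay, iteratedDeriv_fun_mul (hol_contDiffAt hh _)
      (hol_contDiffAt hk _), Finset.Nat.sum_antidiagonal_eq_sum_range_succ_mk, Finset.sum_div]
    refine Finset.sum_congr rfl fun i hi => ?_
    have hi' : i ≤ m := Nat.lt_succ_iff.1 (Finset.mem_range.1 hi)
    rw [coeff_tay, coeff_tay, Nat.cast_choose ℂ hi']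
    have h1 : (m ! : ℂ) ≠ 0 := by exact_mod_cast Nat.factorial_ne_zero m
    have h2 : (i ! : ℂ) ≠ 0 := by exact_mod_cast Nat.factorial_ne_zero i
    have h3 : ((m - i)! : ℂ) ≠ 0 := by exact_mod_cast Nat.factorial_ne_zero (m - i)
    field_simp
  · intro a
    ext m
    rw [coeff_tay, iteratedDeriv_const, PowerSeries.coeff_C]
    by_cases hm : m = 0
    · simp [hm]
    · simp [hm]
  · intro h hh
    refine ⟨hh.deriv Metric.isOpen_ball, ?_⟩
    ext m
    rw [coeff_tay, PowerSeries.coeff_derivative, coeff_tay,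
      iteratedDeriv_succ', Nat.factorial_succ]
    have h1 : (m ! : ℂ) ≠ 0 := by exact_mod_cast Nat.factorial_ne_zero m
    have h2 : ((m : ℂ) + 1) ≠ 0 := by exact_mod_cast Nat.succ_ne_zero m
    push_cast
    field_simp

end Pool.Agent.Y809.PC
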